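import Mathlib
import Pool.Agent.H.MP_f722f0_gt.A

set_option autoImplicit false

namespace Pool.Agent.Results.MP_f722f0_gt.CH

open Set Cardinal Pool.Agent.H.MP_9c4169_gt Pool.Agent.H.MP_f722f0_gt

theorem result (ch : continuum = (aleph 1 : Cardinal.{0})) :
    ∃ X : Set ℝ, X.Nonempty ∧ Split (Ta (Op X)) (Ta (Op X)) ∧ Cho (Ta (Op X)) (Ga (Op X)) ∧
      ¬ Split (Ta (Op (X × X))) (Ta (Op (X × X))) ∧ ¬ Cho (Ta (Op (X × X))) (Ga (Op (X × X))) := by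
  obtain ⟨Z, h1, h2, -, -, h3⟩ := key' ch
  have h4 := (h3 (Z × Z) Prod.fst Prod.snd continuous_fst continuous_snd
    fun x y => ⟨(x, y), rfl, rfl⟩).1
  exact ⟨Z, h1, spl (cho h2), cho h2, h4, fun h => h4 (spl h)⟩

end Pool.Agent.Results.MP_f722f0_gt.CH
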